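import Mathlib
import Pool.Agent.TH881.RK.UniIn

/-!
# Prime triples (and tuples) whose first prime lies in an arbitrary set

For every set `S` of primes and for almost all pairs `(h 1, h 2)`, `h i ≤ X`, the number of the
primes `p ≤ X` in `S` such that `p + h 1` and `p + h 2` are prime is asymptotically determined by
finitely many congruences: it is `(V(w) log X) ^ (-2)` times the number of the primes `p ≤ X` in `S` for
which `p + h 1` and `p + h 2` have no prime factor up to a fixed bound `w`. The same holds for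
`(m + 1)`-tuples, for every `m ≥ 1`. Nothing is assumed about `S`, which may depend on `X`.
-/

set_option autoImplicit false

namespace Pool.Agent.Results.MP_1039f5_nt.ArbitrarySetsOfPrimes
open Finset

open Classical in
/-- The number of the primes `p ≤ X` in `S` for which all `p + h j` are prime. -/
noncomputable def primeCount {m : ℕ} (S : Set ℕ) (X : ℕ) (h : Fin m → ℕ) : ℕ :=
  ((Icc 1 X).filter (fun p => p ∈ S ∧ p.Prime ∧ ∀ j, (p + h j).Prime)).card

open Classical in
/-- The number of the primes `p ≤ X` in `S` for which no `p + h j` has a prime factor `q ≤ w`. -/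
noncomputable def sievedCount {m : ℕ} (S : Set ℕ) (X w : ℕ) (h : Fin m → ℕ) : ℕ :=
  ((Icc 1 X).filter (fun p => p ∈ S ∧ p.Prime ∧ ∀ j, ∀ q : ℕ, q.Prime → q ≤ w → ¬ q ∣ p + h j)).card

/-- The product of `1 - 1 / q` over the primes `q ≤ w`. -/
noncomputable def V (w : ℕ) : ℝ := ∏ q ∈ (Icc 1 w).filter Nat.Prime, (1 - 1 / (q : ℝ))

open Classical in
/-- **Prime tuples with a member in an arbitrary set.** Let `m ≥ 1` and `ε > 0`. For `w ≥ w₀`,
`X ≥ X₀(w)` and every set `S`: for all but at most `ε X ^ m` of the vectors `h` with entries in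
`[1, X]` the number `primeCount S X h` differs from `sievedCount S X w h / (V(w) log X) ^ m` by at most
`ε X / (log X) ^ (m + 1)`. -/
theorem result (m : ℕ) (hm : 1 ≤ m) (ε : ℝ) (hε : 0 < ε) :
    ∃ w₀ : ℕ, ∀ w : ℕ, w₀ ≤ w → ∃ X₀ : ℕ, ∀ X : ℕ, X₀ ≤ X → ∀ S : Set ℕ,
      (((Fintype.piFinset (fun _ : Fin m => Icc 1 X)).filter (fun h : Fin m → ℕ =>
        ε * ((X : ℝ) / Real.log X ^ (m + 1)) <
          |(primeCount S X h : ℝ) - (sievedCount S X w h : ℝ) / (V w * Real.log X) ^ m|)).card : ℝ) ≤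
        ε * (X : ℝ) ^ m := by
  obtain ⟨w0, h0⟩ := Pool.Agent.TH881.RK.uniK_in true m hm ε hε
  refine ⟨w0, fun w hw => ?_⟩
  obtain ⟨X0, hX0⟩ := h0 w hw
  refine ⟨X0 + 3, fun X hX S => ?_⟩
  refine le_trans ?_ (hX0 X (by omega) S)
  have hxr : (3 : ℝ) ≤ X := by exact_mod_cast (by omega : 3 ≤ X)
  have hL : 0 < Real.log (X : ℝ) := Real.log_pos (by linarith)
  have hV : V w = Pool.Agent.H373R2.T7.Vz w := rfl
  have hV0 : 0 < V w := by rw [hV]; exact Pool.Agent.H373R2.T7.Vz_pos w
  have e1 : ∀ h : Fin m → ℕ, ((Icc 1 X).filter (fun n => n ∈ S ∧ Pool.Agent.TH881.RQ.isArg true n ∧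
      ∀ j, (n + h j).Prime)).card = primeCount S X h := by
    intro h
    unfold primeCount
    congr 1
    apply filter_congr
    intro n _
    constructor
    · rintro ⟨a, b, c⟩
      exact ⟨a, b rfl, c⟩
    · rintro ⟨a, b, c⟩
      exact ⟨a, fun _ => b, c⟩
  have e2 : ∀ h : Fin m → ℕ, ((Icc 1 X).filter (fun n => n ∈ S ∧ Pool.Agent.TH881.RQ.isArg true n ∧
      ∀ j, ∀ p : ℕ, p.Prime → p ≤ w → ¬ p ∣ n + h j)).card = sievedCount S X w h := by
    intro h
    unfold sievedCount
    congr 1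
    apply filter_congr
    intro n _
    constructor
    · rintro ⟨a, b, c⟩
      exact ⟨a, b rfl, c⟩
    · rintro ⟨a, b, c⟩
      exact ⟨a, fun _ => b, c⟩
  have hcard : ((Fintype.piFinset (fun _ : Fin m => Icc 1 X)).filter (fun h : Fin m → ℕ =>
        ε * ((X : ℝ) / Real.log X ^ (m + 1)) <
          |(primeCount S X h : ℝ) - (sievedCount S X w h : ℝ) / (V w * Real.log X) ^ m|)).card ≤
      ((Fintype.piFinset (fun _ : Fin m => Icc 1 X)).filter (fun h : Fin m → ℕ =>
        ε * ((X : ℝ) / (if true = true then Real.log X else 1)) <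
          |(((Icc 1 X).filter (fun n => n ∈ S ∧ Pool.Agent.TH881.RQ.isArg true n ∧ ∀ j, (n + h j).Prime)).card : ℝ) * Real.log X ^ m -
            (Pool.Agent.H373R2.T7.Vz w)⁻¹ ^ m * (((Icc 1 X).filter (fun n => n ∈ S ∧ Pool.Agent.TH881.RQ.isArg true n ∧
              ∀ j, ∀ p : ℕ, p.Prime → p ≤ w → ¬ p ∣ n + h j)).card : ℝ)|)).card := by
    apply card_le_card
    intro h hh
    rw [mem_filter] at hh ⊢
    refine ⟨hh.1, ?_⟩
    rw [e1, e2, if_pos rfl, ← hV]
    have h2 := hh.2
    have h3 : (primeCount S X h : ℝ) * Real.log X ^ m - (V w)⁻¹ ^ m * (sievedCount S X w h : ℝ) =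
        Real.log X ^ m * ((primeCount S X h : ℝ) - (sievedCount S X w h : ℝ) / (V w * Real.log X) ^ m) := by
      rw [mul_pow, inv_pow]
      field_simp
    rw [h3, abs_mul, abs_of_pos (by positivity : (0 : ℝ) < Real.log X ^ m)]
    have h4 : ε * ((X : ℝ) / Real.log X) = Real.log X ^ m * (ε * ((X : ℝ) / Real.log X ^ (m + 1))) := by
      rw [pow_succ]
      field_simp
    rw [h4]
    exact mul_lt_mul_of_pos_left h2 (by positivity)
  exact_mod_cast hcard

end Pool.Agent.Results.MP_1039f5_nt.ArbitrarySetsOfPrimes
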